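import Mathlib

/-!
# MP_008109_al: orbits of `Aut X` on special subsets, groups of exponent two

Back-and-forth over finite subgroups, for every countable group of exponent two.
-/

set_option autoImplicit false

universe u v

namespace Pool.Agent.Lib.MP_008109_al

/-- auxiliary form of special subsets -/
def StrongSpecial {X : Type u} [Group X] (S : Set X) : Prop :=
  (∀ s ∈ S, s⁻¹ ∈ S) ∧ (1 : X) ∉ S ∧
    ∀ U V : Finset X, Disjoint U V →
      ∃ z : X, z ∉ U ∧ z ∉ V ∧ (∀ u ∈ U, z * u⁻¹ ∈ S) ∧ (∀ v ∈ V, z * v⁻¹ ∉ S)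

section BackForth

variable {X : Type u} [CommGroup X]

/-- A finite partial isomorphism from `(X,S)` to `(X,T)`, as a finite subgroup of `X × X`. -/
def Good (S T : Set X) (G : Subgroup (X × X)) : Prop :=
  (G : Set (X × X)).Finite ∧ (∀ p ∈ G, p.1 = 1 ↔ p.2 = 1) ∧ (∀ p ∈ G, p.1 ∈ S ↔ p.2 ∈ T)

/-- adjoin one element to a subgroup in a group of exponent two -/
def adj (h2 : ∀ x : X, x * x = 1) (G : Subgroup (X × X)) (q : X × X) : Subgroup (X × X) where
  carrier := {p | p ∈ G ∨ q * p ∈ G}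
  one_mem' := Or.inl G.one_mem
  mul_mem' := by
    have hq : q * q = 1 := by
      ext <;> simp [h2]
    rintro a b (ha | ha) (hb | hb)
    · exact Or.inl (G.mul_mem ha hb)
    · right
      have := G.mul_mem ha hb
      have e : q * (a * b) = a * (q * b) := by rw [← mul_assoc, mul_comm q a, mul_assoc]
      rw [e]; exact this
    · right
      have := G.mul_mem ha hb
      rw [← mul_assoc]; exact this
    · left
      have := G.mul_mem ha hb
      have e : (q * a) * (q * b) = (q * q) * (a * b) := by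
        simp only [mul_comm, mul_left_comm]
      rw [e, hq, one_mul] at this
      exact this
  inv_mem' := by
    have hi : ∀ a : X × X, a⁻¹ = a := by
      intro a
      rw [inv_eq_iff_mul_eq_one]
      ext <;> simp [h2]
    rintro a ha
    rw [hi a]; exact ha

theorem mem_adj (h2 : ∀ x : X, x * x = 1) (G : Subgroup (X × X)) (q p : X × X) :
    p ∈ adj h2 G q ↔ p ∈ G ∨ q * p ∈ G := Iff.rfl

theorem le_adj (h2 : ∀ x : X, x * x = 1) (G : Subgroup (X × X)) (q : X × X) :
    G ≤ adj h2 G q := fun _ hp => Or.inl hp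

theorem extend (h2 : ∀ x : X, x * x = 1) (S T : Set X) (hT : StrongSpecial T)
    (G : Subgroup (X × X)) (hG : Good S T G) (x : X) :
    ∃ G' : Subgroup (X × X), Good S T G' ∧ G ≤ G' ∧ ∃ y, (x, y) ∈ G' := by
  classical
  by_cases hx : ∃ y, (x, y) ∈ G
  · exact ⟨G, hG, le_rfl, hx⟩
  obtain ⟨hfin, h1, hS⟩ := hG
  have hinv : ∀ a : X, a⁻¹ = a := fun a => by
    rw [inv_eq_iff_mul_eq_one]; exact h2 a
  -- the two finite sets
  let U : Finset X := (hfin.toFinset.filter (fun p => x * p.1 ∈ S)).image Prod.snd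
  let V : Finset X := (hfin.toFinset.filter (fun p => x * p.1 ∉ S)).image Prod.snd
  have hinj : ∀ p ∈ G, ∀ q ∈ G, p.2 = q.2 → p.1 = q.1 := by
    intro p hp q hq h
    have hm := G.mul_mem hp (G.inv_mem hq)
    have := (h1 _ hm).2 (by simp [h])
    simpa [mul_inv_eq_one] using this
  have hdisj : Disjoint U V := by
    rw [Finset.disjoint_left]
    intro b hbU hbV
    simp only [U, V, Finset.mem_image, Finset.mem_filter, Set.Finite.mem_toFinset,
      SetLike.mem_coe] at hbU hbV
    obtain ⟨p, ⟨hp, hpS⟩, rfl⟩ := hbU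
    obtain ⟨q, ⟨hq, hqS⟩, hqp⟩ := hbV
    rw [hinj q hq p hp hqp] at hqS
    exact hqS hpS
  obtain ⟨-, -, hext⟩ := hT
  obtain ⟨z, hzU, hzV, hU, hV⟩ := hext U V hdisj
  have hz : ∀ p ∈ G, p.2 ≠ z := by
    rintro p hp rfl
    by_cases hc : x * p.1 ∈ S
    · apply hzU
      simp only [U, Finset.mem_image, Finset.mem_filter, Set.Finite.mem_toFinset, SetLike.mem_coe]
      exact ⟨p, ⟨hp, hc⟩, rfl⟩
    · apply hzV
      simp only [V, Finset.mem_image, Finset.mem_filter, Set.Finite.mem_toFinset, SetLike.mem_coe]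
      exact ⟨p, ⟨hp, hc⟩, rfl⟩
  have hzS : ∀ p ∈ G, (x * p.1 ∈ S ↔ z * p.2 ∈ T) := by
    intro p hp
    by_cases hc : x * p.1 ∈ S
    · have : p.2 ∈ U := by
        simp only [U, Finset.mem_image, Finset.mem_filter, Set.Finite.mem_toFinset,
          SetLike.mem_coe]
        exact ⟨p, ⟨hp, hc⟩, rfl⟩
      have h := hU _ this
      rw [hinv] at h
      exact ⟨fun _ => h, fun _ => hc⟩
    · have : p.2 ∈ V := by
        simp only [V, Finset.mem_image, Finset.mem_filter, Set.Finite.mem_toFinset,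
          SetLike.mem_coe]
        exact ⟨p, ⟨hp, hc⟩, rfl⟩
      have h := hV _ this
      rw [hinv] at h
      exact ⟨fun h' => absurd h' hc, fun h' => absurd h' h⟩
  refine ⟨adj h2 G (x, z), ⟨?_, ?_, ?_⟩, le_adj h2 G _, z, ?_⟩
  · have hsub : ((adj h2 G (x, z) : Subgroup (X × X)) : Set (X × X)) ⊆
        (G : Set (X × X)) ∪ (fun p => (x, z) * p) '' (G : Set (X × X)) := by
      rintro p (hp | hp)
      · exact Or.inl hp
      · right
        refine ⟨(x, z) * p, hp, ?_⟩
        ext <;> simp [← mul_assoc, h2]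
    exact (hfin.union (hfin.image _)).subset hsub
  · rintro p (hp | hp)
    · exact h1 p hp
    · constructor
      · intro h
        exfalso
        apply hx
        refine ⟨z * p.2, ?_⟩
        have : ((x, z) * p) = (x, z * p.2) := by
          ext
          · simp [h]
          · simp
        rwa [this] at hp
      · intro h
        exfalso
        have := hz _ hp
        simp [h] at this
  · rintro p (hp | hp)
    · exact hS p hp
    · have := hzS _ hp
      simpa [← mul_assoc, h2] using this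
  · right
    have : ((x, z) * (x, z) : X × X) = 1 := by
      ext <;> simp [h2]
    rw [this]; exact G.one_mem

theorem good_swap (S T : Set X) (G : Subgroup (X × X)) (hG : Good S T G) :
    Good T S (G.comap (MulEquiv.prodComm : X × X ≃* X × X).toMonoidHom) := by
  obtain ⟨hfin, h1, hS⟩ := hG
  refine ⟨?_, ?_, ?_⟩
  · rw [Subgroup.coe_comap]
    apply Set.Finite.preimage _ hfin
    exact (MulEquiv.prodComm : X × X ≃* X × X).injective.injOn
  · intro p hp
    exact (h1 _ hp).symm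
  · intro p hp
    exact (hS _ hp).symm

theorem extend' (h2 : ∀ x : X, x * x = 1) (S T : Set X) (hS : StrongSpecial S)
    (G : Subgroup (X × X)) (hG : Good S T G) (y : X) :
    ∃ G' : Subgroup (X × X), Good S T G' ∧ G ≤ G' ∧ ∃ x, (x, y) ∈ G' := by
  obtain ⟨G', hG', hle, x, hx⟩ := extend h2 T S hS _ (good_swap S T G hG) y
  refine ⟨_, good_swap T S G' hG', ?_, x, ?_⟩
  · intro p hp
    apply hle
    exact hp
  · exact hx

/-- any two special subsets of a countable group of exponent two are in one orbit -/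
theorem one_orbit [Countable X] (h2 : ∀ x : X, x * x = 1) (S T : Set X) (hS : StrongSpecial S)
    (hT : StrongSpecial T) : ∃ σ : MulAut X, (fun x => σ x) '' S = T := by
  classical
  have : Encodable X := Encodable.ofCountable X
  let P := {G : Subgroup (X × X) // Good S T G}
  let D : X ⊕ X → Order.Cofinal P := fun s => match s with
    | Sum.inl x =>
      { carrier := {G : P | ∃ y, (x, y) ∈ G.1}
        isCofinal := by
          rintro ⟨G, hG⟩
          obtain ⟨G', hG', hle, h⟩ := extend h2 S T hT G hG x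
          exact ⟨⟨G', hG'⟩, h, hle⟩ }
    | Sum.inr y =>
      { carrier := {G : P | ∃ x, (x, y) ∈ G.1}
        isCofinal := by
          rintro ⟨G, hG⟩
          obtain ⟨G', hG', hle, h⟩ := extend' h2 S T hS G hG y
          exact ⟨⟨G', hG'⟩, h, hle⟩ }
  have hbot : Good S T (⊥ : Subgroup (X × X)) := by
    refine ⟨?_, ?_, ?_⟩
    · simp
    · intro p hp
      rw [Subgroup.mem_bot] at hp
      subst hp; simp
    · intro p hp
      rw [Subgroup.mem_bot] at hp
      subst hp
      simp only [Prod.fst_one, Prod.snd_one]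
      exact ⟨fun h => absurd h hS.2.1, fun h => absurd h hT.2.1⟩
  let I : Order.Ideal P := Order.idealOfCofinals ⟨⊥, hbot⟩ D
  have hl : ∀ x : X, ∃ y, ∃ G ∈ I, (x, y) ∈ G.1 := by
    intro x
    obtain ⟨G, hG, hGI⟩ := Order.cofinal_meets_idealOfCofinals (⟨⊥, hbot⟩ : P) D (Sum.inl x)
    obtain ⟨y, hy⟩ := hG
    exact ⟨y, G, hGI, hy⟩
  have hr : ∀ y : X, ∃ x, ∃ G ∈ I, (x, y) ∈ G.1 := by
    intro y
    obtain ⟨G, hG, hGI⟩ := Order.cofinal_meets_idealOfCofinals (⟨⊥, hbot⟩ : P) D (Sum.inr y)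
    obtain ⟨x, hx⟩ := hG
    exact ⟨x, G, hGI, hx⟩
  -- R x y
  have hmul : ∀ p q : X × X, (∃ G ∈ I, p ∈ G.1) → (∃ G ∈ I, q ∈ G.1) →
      ∃ G ∈ I, p * q ∈ G.1 := by
    rintro p q ⟨G, hG, hp⟩ ⟨H, hH, hq⟩
    obtain ⟨K, hK, hGK, hHK⟩ := I.directed G hG H hH
    exact ⟨K, hK, K.1.mul_mem (hGK hp) (hHK hq)⟩
  have hinv : ∀ p : X × X, (∃ G ∈ I, p ∈ G.1) → ∃ G ∈ I, p⁻¹ ∈ G.1 := by
    rintro p ⟨G, hG, hp⟩
    exact ⟨G, hG, G.1.inv_mem hp⟩
  have hone : ∀ p : X × X, (∃ G ∈ I, p ∈ G.1) → (p.1 = 1 ↔ p.2 = 1) := by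
    rintro p ⟨G, hG, hp⟩
    exact G.2.2.1 p hp
  have hST : ∀ p : X × X, (∃ G ∈ I, p ∈ G.1) → (p.1 ∈ S ↔ p.2 ∈ T) := by
    rintro p ⟨G, hG, hp⟩
    exact G.2.2.2 p hp
  choose f hf using hl
  choose g hg using hr
  have huniq : ∀ x y y' : X, (∃ G ∈ I, (x, y) ∈ G.1) → (∃ G ∈ I, (x, y') ∈ G.1) → y = y' := by
    intro x y y' h h'
    have := (hone _ (hmul _ _ h (hinv _ h'))).1 (by simp)
    simpa [mul_inv_eq_one] using this
  have huniq' : ∀ x x' y : X, (∃ G ∈ I, (x, y) ∈ G.1) → (∃ G ∈ I, (x', y) ∈ G.1) → x = x' := by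
    intro x x' y h h'
    have := (hone _ (hmul _ _ h (hinv _ h'))).2 (by simp)
    simpa [mul_inv_eq_one] using this
  let σ : MulAut X :=
    { toFun := f
      invFun := g
      left_inv := fun x => huniq' _ _ _ (hg (f x)) (hf x)
      right_inv := fun y => huniq _ _ _ (hf (g y)) (hg y)
      map_mul' := fun a b => by
        have := hmul _ _ (hf a) (hf b)
        exact huniq _ _ _ (hf (a * b)) this }
  refine ⟨σ, ?_⟩
  ext y
  constructor
  · rintro ⟨x, hx, rfl⟩
    exact (hST _ (hf x)).1 hx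
  · intro hy
    refine ⟨g y, (hST _ (hg y)).2 hy, ?_⟩
    exact huniq _ _ _ (hf (g y)) (hg y)

end BackForth


end Pool.Agent.Lib.MP_008109_al
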