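import Pool.Agent.Lib.MP_008109_al.BackForth

/-!
# MP_008109_al: definitions of the problem file and the complete statement for groups of exponent two
-/

set_option autoImplicit false

universe u v

namespace Pool.Agent.Lib.MP_008109_al

/-- Property (*): for all finite disjoint vertex sets `U`, `W` some vertex is adjacent to every
vertex of `U` and to no vertex of `W`. -/
def HasStar {V : Type v} (R : SimpleGraph V) : Prop :=
  ∀ U W : Finset V, Disjoint U W → ∃ z : V, (∀ u ∈ U, R.Adj z u) ∧ ∀ w ∈ W, ¬ R.Adj z w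

/-- Property (†): the group is not the union of finitely many sets `T(x, y)`, `x ≠ y`, and finitely
many single elements. -/
def HasDagger (X : Type u) [Group X] : Prop :=
  ¬ ∃ (F : Finset (X × X)) (E : Finset X), (∀ p ∈ F, p.1 ≠ p.2) ∧
    ∀ z : X, z ∈ E ∨ ∃ p ∈ F, z ∈ {z : X | p.1 * z⁻¹ = z * p.2⁻¹}

/-- The Cayley graph `Γ(X, S)`: `x` and `y` are adjacent iff `x y⁻¹ ∈ S`, for `S` inverse closed
without `1`. -/
def cayley {X : Type u} [Group X] (S : Set X) (h : ∀ s ∈ S, s⁻¹ ∈ S) (h1 : (1 : X) ∉ S) :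
    SimpleGraph X where
  Adj x y := x * y⁻¹ ∈ S
  symm := ⟨fun x y hxy => by
    have := h _ hxy
    simpa using this⟩
  loopless := ⟨fun x hx => h1 (by simpa using hx)⟩

/-- Special subsets: `S = S⁻¹`, `1 ∉ S` and `Γ(X, S)` is the countable graph with property (*). -/
def IsSpecial {X : Type u} [Group X] (S : Set X) : Prop :=
  ∃ (h : ∀ s ∈ S, s⁻¹ ∈ S) (h1 : (1 : X) ∉ S), HasStar (cayley S h h1)

/-- A subgroup of `Aut R` which is regular on the vertices. -/
def IsRegular {V : Type v} {R : SimpleGraph V} (H : Subgroup (R ≃g R)) : Prop :=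
  ∀ v w : V, ∃! h : R ≃g R, h ∈ H ∧ h v = w

theorem HasStar.strong {V : Type v} {R : SimpleGraph V} (h : HasStar R) (U W : Finset V)
    (hd : Disjoint U W) : ∃ z : V, z ∉ U ∧ z ∉ W ∧ (∀ u ∈ U, R.Adj z u) ∧ ∀ w ∈ W, ¬ R.Adj z w := by
  classical
  obtain ⟨t, ht, -⟩ := h (U ∪ W) ∅ (by simp)
  have htU : t ∉ U := fun h' => R.irrefl (ht t (Finset.mem_union_left _ h'))
  obtain ⟨z, hzU, hzW⟩ := h U (insert t W) (by
    rw [Finset.disjoint_insert_right]
    exact ⟨htU, hd⟩)
  have hzt : ¬ R.Adj z t := hzW t (Finset.mem_insert_self _ _)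
  refine ⟨z, fun h' => R.irrefl (hzU z h'), fun h' => hzt ?_, hzU,
    fun w hw => hzW w (Finset.mem_insert_of_mem hw)⟩
  exact (ht z (Finset.mem_union_right _ h')).symm

theorem IsSpecial.strong {X : Type u} [Group X] {S : Set X} (h : IsSpecial S) :
    StrongSpecial S := by
  obtain ⟨hi, h1, hs⟩ := h
  refine ⟨hi, h1, fun U V hd => ?_⟩
  obtain ⟨z, h2, h3, h4, h5⟩ := hs.strong U V hd
  exact ⟨z, h2, h3, h4, h5⟩

theorem inv_eq_self {X : Type u} [Group X] (h2 : ∀ x : X, x * x = 1) (a : X) : a⁻¹ = a := by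
  rw [inv_eq_iff_mul_eq_one]
  exact h2 a

theorem mul_comm' {X : Type u} [Group X] (h2 : ∀ x : X, x * x = 1) (a b : X) : a * b = b * a := by
  have h := inv_eq_self h2 (a * b)
  rw [mul_inv_rev, inv_eq_self h2, inv_eq_self h2] at h
  exact h.symm

theorem hasDagger {X : Type u} [Group X] [Infinite X] (h2 : ∀ x : X, x * x = 1) :
    HasDagger X := by
  rintro ⟨F, E, hF, hc⟩
  obtain ⟨z, hz⟩ := Infinite.exists_notMem_finset E
  rcases hc z with h | ⟨p, hp, h⟩
  · exact hz h
  · apply hF p hp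
    have h' : p.1 * z⁻¹ = z * p.2⁻¹ := h
    rw [inv_eq_self h2, inv_eq_self h2, mul_comm' h2 z] at h'
    exact mul_right_cancel h'

theorem one_orbit' {X : Type u} [Group X] [Countable X] (h2 : ∀ x : X, x * x = 1) (S T : Set X)
    (hS : IsSpecial S) (hT : IsSpecial T) : ∃ α : X ≃* X, α '' S = T := by
  let _ : CommGroup X := { ‹Group X› with mul_comm := mul_comm' h2 }
  obtain ⟨σ, hσ⟩ := one_orbit (X := X) h2 S T hS.strong hT.strong
  exact ⟨σ, hσ⟩

/-! ### Existence of a special subset -/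

theorem exists_seq {X : Type u} [Infinite X] (P : (n : ℕ) → ((m : ℕ) → m < n → X) → Finset X) :
    ∃ z : ℕ → X, ∀ n, z n ∉ P n (fun m _ => z m) := by
  classical
  let F : (n : ℕ) → ((m : ℕ) → m < n → X) → X :=
    fun n f => Classical.choose (Infinite.exists_notMem_finset (P n f))
  let z : ℕ → X := (wellFounded_lt (α := ℕ)).fix F
  refine ⟨z, fun n => ?_⟩
  have h : z n = F n (fun m _ => z m) := WellFounded.fix_eq _ _ _
  have h' := Classical.choose_spec (Infinite.exists_notMem_finset (P n (fun m _ => z m)))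
  rw [h]
  exact h'

theorem exists_special {X : Type u} [Group X] [Countable X] [Infinite X]
    (h2 : ∀ x : X, x * x = 1) : ∃ S : Set X, IsSpecial S := by
  classical
  -- enumerate the pairs of disjoint finite sets
  have hc : Countable {p : Finset X × Finset X // Disjoint p.1 p.2} := inferInstance
  have hne : Nonempty {p : Finset X × Finset X // Disjoint p.1 p.2} := ⟨⟨(∅, ∅), by simp⟩⟩
  obtain ⟨e, he⟩ := exists_surjective_nat {p : Finset X × Finset X // Disjoint p.1 p.2}
  let A : ℕ → Finset X := fun n => (e n).1.1 ∪ (e n).1.2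
  let P : (n : ℕ) → ((m : ℕ) → m < n → X) → Finset X := fun n f =>
    A n ∪ ((Finset.range n).attach.biUnion (fun m =>
      (A m.1 ×ˢ A n).image (fun q => f m.1 (Finset.mem_range.1 m.2) * q.1 * q.2)))
  obtain ⟨z, hz⟩ := exists_seq P
  have hz1 : ∀ n, ∀ w ∈ A n, z n ≠ w := by
    rintro n w hw rfl
    exact hz n (Finset.mem_union_left _ hw)
  have hz2 : ∀ n m, m < n → ∀ w ∈ A n, ∀ w' ∈ A m, z n * w ≠ z m * w' := by
    intro n m hmn w hw w' hw' h
    apply hz n
    refine Finset.mem_union_right _ ?_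
    rw [Finset.mem_biUnion]
    refine ⟨⟨m, Finset.mem_range.2 hmn⟩, Finset.mem_attach _ _, ?_⟩
    rw [Finset.mem_image]
    refine ⟨(w', w), Finset.mem_product.2 ⟨hw', hw⟩, ?_⟩
    change z m * w' * w = z n
    rw [← h, mul_assoc, h2, mul_one]
  let S : Set X := {s | ∃ n, ∃ w ∈ (e n).1.1, s = z n * w}
  have hi : ∀ s ∈ S, s⁻¹ ∈ S := by
    intro s hs
    rw [inv_eq_self h2]
    exact hs
  have h1 : (1 : X) ∉ S := by
    rintro ⟨n, w, hw, h⟩
    apply hz1 n w (Finset.mem_union_left _ hw)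
    rw [eq_comm, mul_eq_one_iff_eq_inv, inv_eq_self h2] at h
    exact h
  refine ⟨S, hi, h1, ?_⟩
  intro U W hd
  obtain ⟨n, hn⟩ := he ⟨(U, W), hd⟩
  have hU : (e n).1.1 = U := by rw [hn]
  have hW : (e n).1.2 = W := by rw [hn]
  refine ⟨z n, fun u hu => ?_, fun w hw hadj => ?_⟩
  · change z n * u⁻¹ ∈ S
    rw [inv_eq_self h2]
    exact ⟨n, u, by rw [hU]; exact hu, rfl⟩
  · change z n * w⁻¹ ∈ S at hadj
    rw [inv_eq_self h2] at hadj
    obtain ⟨m, w', hw', h⟩ := hadj
    have hwn : w ∈ A n := Finset.mem_union_right _ (by rw [hW]; exact hw)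
    have hwm : w' ∈ A m := Finset.mem_union_left _ hw'
    rcases lt_trichotomy n m with hlt | rfl | hlt
    · exact hz2 m n hlt w' hwm w hwn h.symm
    · have h3 := mul_left_cancel h
      subst h3
      rw [hU] at hw'
      exact (Finset.disjoint_left.1 hd) hw' hw
    · exact hz2 n m hlt w hwn w' hwm h

/-! ### The automorphism group has the size of the continuum -/

/-- The model. -/
abbrev X0 : Type := Multiplicative (ℕ →₀ ZMod 2)

theorem exp_two (x : X0) : x * x = 1 := by
  apply Multiplicative.toAdd.injective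
  ext i
  have : ∀ a : ZMod 2, a + a = 0 := by decide
  simp [this]

instance : Infinite X0 := by
  have : Infinite (ℕ →₀ ZMod 2) := inferInstance
  exact this

instance : Countable X0 := by
  have : Countable (ℕ →₀ ZMod 2) := inferInstance
  exact this

theorem card_aut0 : Cardinal.mk (MulAut X0) = Cardinal.continuum := by
  have hX : Cardinal.mk X0 = Cardinal.aleph0 := Cardinal.mk_eq_aleph0 X0
  apply le_antisymm
  · have h1 : Function.Injective (fun σ : MulAut X0 => (fun x => σ x : X0 → X0)) := by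
      intro σ τ h
      exact MulEquiv.ext (fun x => congrFun h x)
    have h2 := Cardinal.mk_le_of_injective h1
    rw [← Cardinal.power_def, hX] at h2
    simpa using h2
  · have h1 : Function.Injective (fun e : Equiv.Perm ℕ =>
        (AddEquiv.toMultiplicative (Finsupp.domCongr e : (ℕ →₀ ZMod 2) ≃+ (ℕ →₀ ZMod 2)) :
          MulAut X0)) := by
      intro e e' h
      ext i
      have h' := congrArg (fun σ : MulAut X0 =>
        (Multiplicative.toAdd (σ (Multiplicative.ofAdd (Finsupp.single i (1 : ZMod 2)))))) h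
      simp only at h'
      have h'' : Finsupp.single (e i) (1 : ZMod 2) = Finsupp.single (e' i) 1 := by
        simpa using h'
      rcases Finsupp.single_eq_single_iff _ _ _ _ |>.1 h'' with h3 | h3
      · exact h3.1
      · exact absurd h3.1 one_ne_zero
    have h2 := Cardinal.mk_le_of_injective h1
    rw [Cardinal.mk_perm_eq_two_power] at h2
    simpa using h2

/-- Every countably infinite group of exponent two is isomorphic to the model. -/
theorem exists_iso {X : Type u} [Group X] [Countable X] [Infinite X]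
    (h2 : ∀ x : X, x * x = 1) : Nonempty (X ≃* X0) := by
  classical
  let _ : CommGroup X := { ‹Group X› with mul_comm := mul_comm' h2 }
  let _ : Module (ZMod 2) (Additive X) := AddCommGroup.zmodModule (n := 2) (fun x => by
    rw [two_nsmul]
    exact congrArg Additive.ofMul (h2 x.toMul))
  let b := Module.Basis.ofVectorSpace (ZMod 2) (Additive X)
  have hcX : Countable (Additive X) := ‹Countable X›
  have hiX : Infinite (Additive X) := ‹Infinite X›
  have hc : Countable (Module.Basis.ofVectorSpaceIndex (ZMod 2) (Additive X)) :=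
    b.injective.countable
  have hi : Infinite (Module.Basis.ofVectorSpaceIndex (ZMod 2) (Additive X)) := by
    by_contra hfin
    rw [not_infinite_iff_finite] at hfin
    have h3 : Finite (Module.Basis.ofVectorSpaceIndex (ZMod 2) (Additive X) → ZMod 2) :=
      Pi.finite
    have h4 : Finite (Module.Basis.ofVectorSpaceIndex (ZMod 2) (Additive X) →₀ ZMod 2) :=
      Finite.of_equiv _ (Finsupp.equivFunOnFinite
        (α := Module.Basis.ofVectorSpaceIndex (ZMod 2) (Additive X)) (M := ZMod 2)).symm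
    have : Finite (Additive X) := Finite.of_equiv _ b.repr.toEquiv.symm
    exact not_finite (Additive X)
  obtain ⟨d⟩ := nonempty_denumerable
    (Module.Basis.ofVectorSpaceIndex (ZMod 2) (Additive X))
  let en : Module.Basis.ofVectorSpaceIndex (ZMod 2) (Additive X) ≃ ℕ := Denumerable.eqv _
  let f : Additive X ≃+ (ℕ →₀ ZMod 2) := (b.reindex en).repr.toAddEquiv
  exact ⟨{ toFun := fun x => Multiplicative.ofAdd (f (Additive.ofMul x))
           invFun := fun y => (f.symm y.toAdd).toMul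
           left_inv := fun x => by simp
           right_inv := fun y => by simp
           map_mul' := fun x y => by
            change Multiplicative.ofAdd (f (Additive.ofMul x + Additive.ofMul y)) = _
            rw [map_add]
            rfl }⟩

theorem card_aut {X : Type u} [Group X] [Countable X] [Infinite X]
    (h2 : ∀ x : X, x * x = 1) : Cardinal.mk (X ≃* X) = Cardinal.continuum := by
  obtain ⟨f⟩ := exists_iso h2
  have h := (MulAut.congr f).toEquiv
  have h3 : Cardinal.lift.{0} (Cardinal.mk (X ≃* X)) = Cardinal.lift.{u} (Cardinal.mk (X0 ≃* X0)) :=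
    Cardinal.mk_congr_lift h
  have h4 : Cardinal.mk (X0 ≃* X0) = Cardinal.continuum := card_aut0
  rw [h4] at h3
  simpa using h3

/-! ### Regular subgroups -/

section Regular

variable {X : Type u} [Group X] {V : Type v} {R : SimpleGraph V}

/-- The orbit map of a regular subgroup. -/
noncomputable def orb {H : Subgroup (R ≃g R)} (hH : IsRegular H) (φ : X ≃* H) (v0 : V) : X ≃ V :=
  Equiv.ofBijective (fun x => (φ x : R ≃g R) v0) (by
    constructor
    · intro x y hxy
      obtain ⟨h, -, hu⟩ := hH v0 ((φ x : R ≃g R) v0)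
      have h1 := hu (φ x) ⟨(φ x).2, rfl⟩
      have h2 := hu (φ y) ⟨(φ y).2, hxy.symm⟩
      exact φ.injective (Subtype.ext (h1.trans h2.symm))
    · intro w
      obtain ⟨h, ⟨hm, hw⟩, -⟩ := hH v0 w
      refine ⟨φ.symm ⟨h, hm⟩, ?_⟩
      simp only [MulEquiv.apply_symm_apply]
      exact hw)

theorem orb_apply {H : Subgroup (R ≃g R)} (hH : IsRegular H) (φ : X ≃* H) (v0 : V) (x : X) :
    orb hH φ v0 x = (φ x : R ≃g R) v0 := rfl

/-- The special subset attached to a regular subgroup. -/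
def conn {H : Subgroup (R ≃g R)} (φ : X ≃* H) (v0 : V) : Set X :=
  {x | R.Adj v0 ((φ x : R ≃g R) v0)}

theorem conn_iff (h2 : ∀ x : X, x * x = 1) {H : Subgroup (R ≃g R)} (φ : X ≃* H) (v0 : V)
    (x y : X) : x * y⁻¹ ∈ conn φ v0 ↔ R.Adj ((φ x : R ≃g R) v0) ((φ y : R ≃g R) v0) := by
  have h1 : (φ (x * y⁻¹) : R ≃g R) v0 = (φ y : R ≃g R).symm ((φ x : R ≃g R) v0) := by
    rw [mul_comm' h2, map_mul, map_inv]
    rfl
  change R.Adj v0 ((φ (x * y⁻¹) : R ≃g R) v0) ↔ _
  rw [h1, ← (φ y : R ≃g R).map_adj_iff, RelIso.apply_symm_apply, R.adj_comm]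

theorem conn_special (h2 : ∀ x : X, x * x = 1) (hR : HasStar R) {H : Subgroup (R ≃g R)}
    (hH : IsRegular H) (φ : X ≃* H) (v0 : V) : IsSpecial (conn φ v0) := by
  classical
  refine ⟨fun s hs => by rw [inv_eq_self h2]; exact hs, ?_, ?_⟩
  · intro h
    have h3 : R.Adj v0 ((φ 1 : R ≃g R) v0) := h
    rw [map_one] at h3
    exact R.irrefl h3
  · intro U W hd
    let e := orb hH φ v0
    obtain ⟨z, hU, hW⟩ := hR (U.map e.toEmbedding) (W.map e.toEmbedding) (by
      rw [Finset.disjoint_map]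
      exact hd)
    obtain ⟨x, rfl⟩ := e.surjective z
    refine ⟨x, fun u hu => ?_, fun w hw h => ?_⟩
    · exact (conn_iff h2 φ v0 x u).2 (hU (e u) (Finset.mem_map_of_mem _ hu))
    · exact hW (e w) (Finset.mem_map_of_mem _ hw) ((conn_iff h2 φ v0 x w).1 h)

theorem regular_conj [Countable X] (h2 : ∀ x : X, x * x = 1) (hR : HasStar R)
    {H K : Subgroup (R ≃g R)} (hH : IsRegular H) (hK : IsRegular K) (φ : X ≃* H) (ψ : X ≃* K) :
    ∃ g : R ≃g R, H.map (MulAut.conj g).toMonoidHom = K := by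
  obtain ⟨v0, -, -⟩ := hR ∅ ∅ (by simp)
  obtain ⟨α, hα⟩ := one_orbit' h2 _ _ (conn_special h2 hR hH φ v0) (conn_special h2 hR hK ψ v0)
  have hα' : ∀ x, α x ∈ conn ψ v0 ↔ x ∈ conn φ v0 := by
    intro x
    rw [← hα]
    exact α.injective.mem_set_image
  let eH := orb hH φ v0
  let eK := orb hK ψ v0
  let g0 : V ≃ V := (eH.symm.trans α.toEquiv).trans eK
  have hg0 : ∀ x, g0 (eH x) = eK (α x) := fun x => by
    change eK (α (eH.symm (eH x))) = _
    rw [Equiv.symm_apply_apply]
  let g : R ≃g R := ⟨g0, by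
    intro a b
    obtain ⟨x, rfl⟩ := eH.surjective a
    obtain ⟨y, rfl⟩ := eH.surjective b
    rw [hg0, hg0]
    change R.Adj ((ψ (α x) : R ≃g R) v0) ((ψ (α y) : R ≃g R) v0) ↔
      R.Adj ((φ x : R ≃g R) v0) ((φ y : R ≃g R) v0)
    rw [← conn_iff h2, ← conn_iff h2, ← hα' (x * y⁻¹), map_mul, map_inv]⟩
  have hg : ∀ x, g (eH x) = eK (α x) := hg0
  have hconj : ∀ x : X, g * (φ x : R ≃g R) * g⁻¹ = (ψ (α x) : R ≃g R) := by
    intro x
    rw [mul_inv_eq_iff_eq_mul]
    ext v
    obtain ⟨y, rfl⟩ := eH.surjective v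
    have h3 : (φ x : R ≃g R) (eH y) = eH (x * y) := by
      change (φ x : R ≃g R) ((φ y : R ≃g R) v0) = (φ (x * y) : R ≃g R) v0
      rw [map_mul]
      rfl
    have h4 : (ψ (α x) : R ≃g R) (eK (α y)) = eK (α (x * y)) := by
      change (ψ (α x) : R ≃g R) ((ψ (α y) : R ≃g R) v0) = (ψ (α (x * y)) : R ≃g R) v0
      rw [map_mul, map_mul]
      rfl
    change g ((φ x : R ≃g R) (eH y)) = (ψ (α x) : R ≃g R) (g (eH y))
    rw [h3, hg, hg, h4]
  refine ⟨g, ?_⟩
  ext k
  rw [Subgroup.mem_map]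
  constructor
  · rintro ⟨h, hh, rfl⟩
    have h5 := hconj (φ.symm ⟨h, hh⟩)
    rw [MulEquiv.apply_symm_apply] at h5
    change g * h * g⁻¹ ∈ K
    rw [h5]
    exact (ψ _).2
  · intro hk
    refine ⟨(φ (α.symm (ψ.symm ⟨k, hk⟩)) : R ≃g R), (φ _).2, ?_⟩
    change g * (φ (α.symm (ψ.symm ⟨k, hk⟩)) : R ≃g R) * g⁻¹ = k
    rw [hconj, MulEquiv.apply_symm_apply, MulEquiv.apply_symm_apply]

end Regular

end Pool.Agent.Lib.MP_008109_al
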